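import Pool.Agent.Lib.Pecede9.Three

/-!
# Uniqueness of card multiplicities for at most three cards

If two graphs on `n ≥ 4` vertices have the same set of (isomorphism classes of) cards and this set
has at most three elements, then every card has the same multiplicity in both decks.
-/

set_option autoImplicit false

namespace Pool.Agent.Results.MP_ecede9_co.AtMostThreeCards

theorem result (n : ℕ) (hn : 4 ≤ n) (G H : SimpleGraph (Fin n))
    (h1 : ∀ v : Fin n, ∃ w : Fin n,
      Nonempty (G.induce ({v}ᶜ : Set (Fin n)) ≃g H.induce ({w}ᶜ : Set (Fin n))))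
    (h2 : ∀ w : Fin n, ∃ v : Fin n,
      Nonempty (G.induce ({v}ᶜ : Set (Fin n)) ≃g H.induce ({w}ᶜ : Set (Fin n))))
    (p q r : Fin n)
    (h3 : ∀ v : Fin n,
      Nonempty (G.induce ({v}ᶜ : Set (Fin n)) ≃g G.induce ({p}ᶜ : Set (Fin n))) ∨
      Nonempty (G.induce ({v}ᶜ : Set (Fin n)) ≃g G.induce ({q}ᶜ : Set (Fin n))) ∨
      Nonempty (G.induce ({v}ᶜ : Set (Fin n)) ≃g G.induce ({r}ᶜ : Set (Fin n)))) :
    ∀ v : Fin n,
      Set.ncard {u : Fin n |
        Nonempty (G.induce ({u}ᶜ : Set (Fin n)) ≃g G.induce ({v}ᶜ : Set (Fin n)))} =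
      Set.ncard {u : Fin n |
        Nonempty (H.induce ({u}ᶜ : Set (Fin n)) ≃g G.induce ({v}ᶜ : Set (Fin n)))} := by
  have : Nonempty (Fin n) := ⟨p⟩
  intro v
  exact Pool.Agent.Lib.Pecede9.three (by rw [Fintype.card_fin]; exact hn) ⟨h1, h2⟩ p q r h3 v

end Pool.Agent.Results.MP_ecede9_co.AtMostThreeCards
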