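import Pool.Agent.Lib.Pecede9E.Equit

/-!
# Uniqueness of card multiplicities when different cards have different numbers of edges

If two graphs on `n ≥ 4` vertices have the same set of (isomorphism classes of) cards, and
non-isomorphic cards have different numbers of edges, then every card has the same multiplicity in
both decks.  Any number of different cards is allowed.
-/

set_option autoImplicit false

open Finset

namespace Pool.Agent.Results.MP_ecede9_co.DistinctEdgeNumbers

open Pool.Agent.Lib.Pecede9 Pool.Agent.Lib.Pecede9E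

theorem edges_card {n : ℕ} (G : SimpleGraph (Fin n)) (v : Fin n) :
    (G.induce ({v}ᶜ : Set (Fin n))).edgeSet.ncard =
      G.edgeSet.ncard - (G.neighborSet v).ncard := by
  classical
  have h1 := G.card_edgeFinset_induce_compl_singleton v
  rw [G.card_edgeFinset_deleteIncidenceSet v] at h1
  have h2 : (G.neighborSet v).ncard = G.degree v := by
    have h3 : ((G.neighborFinset v : Finset (Fin n)) : Set (Fin n)) = G.neighborSet v :=
      SimpleGraph.coe_neighborFinset G v
    rw [← SimpleGraph.card_neighborFinset_eq_degree, ← Set.ncard_coe_finset, h3]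
  rw [← SimpleGraph.coe_edgeFinset, Set.ncard_coe_finset, h1, ← SimpleGraph.coe_edgeFinset,
    Set.ncard_coe_finset, h2]

theorem dg_eq {n : ℕ} (G : SimpleGraph (Fin n)) (v : Fin n) :
    dg G v = ((G.neighborSet v).ncard : ℤ) := by
  classical
  have h1 : G.neighborSet v = ((univ.filter fun w => G.Adj v w : Finset (Fin n)) : Set (Fin n)) := by
    ext w; simp
  rw [h1, Set.ncard_coe_finset, card_filter]
  unfold dg
  push_cast
  refine sum_congr rfl fun w _ => ?_
  by_cases h : G.Adj v w
  · rw [a_one h, if_pos h]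
  · rw [a_zero h, if_neg h]

theorem result (n : ℕ) (hn : 4 ≤ n) (G H : SimpleGraph (Fin n))
    (h1 : ∀ v : Fin n, ∃ w : Fin n,
      Nonempty (G.induce ({v}ᶜ : Set (Fin n)) ≃g H.induce ({w}ᶜ : Set (Fin n))))
    (h2 : ∀ w : Fin n, ∃ v : Fin n,
      Nonempty (G.induce ({v}ᶜ : Set (Fin n)) ≃g H.induce ({w}ᶜ : Set (Fin n))))
    (h3 : ∀ u v : Fin n,
      (G.induce ({u}ᶜ : Set (Fin n))).edgeSet.ncard =
        (G.induce ({v}ᶜ : Set (Fin n))).edgeSet.ncard →
      Nonempty (G.induce ({u}ᶜ : Set (Fin n)) ≃g G.induce ({v}ᶜ : Set (Fin n)))) :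
    ∀ v : Fin n,
      Set.ncard {u : Fin n |
        Nonempty (G.induce ({u}ᶜ : Set (Fin n)) ≃g G.induce ({v}ᶜ : Set (Fin n)))} =
      Set.ncard {u : Fin n |
        Nonempty (H.induce ({u}ᶜ : Set (Fin n)) ≃g G.induce ({v}ᶜ : Set (Fin n)))} := by
  intro v
  refine distinct (by rw [Fintype.card_fin]; exact hn) ⟨h1, h2⟩ ?_ v
  intro u w huw
  apply h3
  rw [dg_eq, dg_eq] at huw
  have h4 : (G.neighborSet u).ncard = (G.neighborSet w).ncard := by exact_mod_cast huw
  rw [edges_card, edges_card, h4]

end Pool.Agent.Results.MP_ecede9_co.DistinctEdgeNumbers
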