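import Pool.Agent.Lib.Pecede9E.Equit

/-!
# The degree sequence is determined by the set of cards if the degree partition is equitable

If the number of neighbours of degree `k` of a vertex of `G` depends only on the degree of the
vertex (for all `k`) and `H` has the same set of cards, then `G` and `H` have the same number of
vertices of each degree.
-/

set_option autoImplicit false

open Finset

namespace Pool.Agent.Results.MP_ecede9_co.EquitableDegrees

open Pool.Agent.Lib.Pecede9 Pool.Agent.Lib.Pecede9E

theorem dg_eq {n : ℕ} (G : SimpleGraph (Fin n)) (v : Fin n) :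
    dg G v = ((G.neighborSet v).ncard : ℤ) := by
  classical
  have h1 : G.neighborSet v = ((univ.filter fun w => G.Adj v w : Finset (Fin n)) : Set (Fin n)) := by
    ext w; simp
  rw [h1, Set.ncard_coe_finset, card_filter]
  unfold dg
  push_cast
  refine sum_congr rfl fun w _ => ?_
  by_cases h : G.Adj v w
  · rw [a_one h, if_pos h]
  · rw [a_zero h, if_neg h]

theorem eqt {n : ℕ} (G : SimpleGraph (Fin n))
    (h3 : ∀ (u v : Fin n) (k : ℕ), (G.neighborSet u).ncard = (G.neighborSet v).ncard →
      Set.ncard {w : Fin n | G.Adj u w ∧ (G.neighborSet w).ncard = k} =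
        Set.ncard {w : Fin n | G.Adj v w ∧ (G.neighborSet w).ncard = k}) : Eqt G := by
  classical
  intro g u v huv
  rw [dg_eq, dg_eq] at huv
  have h4 : (G.neighborSet u).ncard = (G.neighborSet v).ncard := by exact_mod_cast huv
  have key : ∀ x : Fin n, Wg G g x = ∑ k ∈ range (n + 1),
      (Set.ncard {w : Fin n | G.Adj x w ∧ (G.neighborSet w).ncard = k} : ℤ) * g k := by
    intro x
    have e1 : ∀ k : ℕ, (Set.ncard {w : Fin n | G.Adj x w ∧ (G.neighborSet w).ncard = k} : ℤ) =
        ∑ w, if (G.neighborSet w).ncard = k then a G x w else 0 := by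
      intro k
      have e2 : {w : Fin n | G.Adj x w ∧ (G.neighborSet w).ncard = k} =
          ((univ.filter fun w => G.Adj x w ∧ (G.neighborSet w).ncard = k : Finset (Fin n)) :
            Set (Fin n)) := by
        ext w; simp
      rw [e2, Set.ncard_coe_finset, card_filter]
      push_cast
      refine sum_congr rfl fun w _ => ?_
      by_cases h5 : G.Adj x w
      · by_cases h6 : (G.neighborSet w).ncard = k
        · rw [if_pos ⟨h5, h6⟩, if_pos h6, a_one h5]
        · rw [if_neg (fun h => h6 h.2), if_neg h6]
      · rw [if_neg (fun h => h5 h.1)]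
        split_ifs
        · rw [a_zero h5]
        · rfl
    simp only [e1, sum_mul]
    rw [sum_comm]
    unfold Wg
    refine sum_congr rfl fun w _ => ?_
    rw [sum_eq_single (G.neighborSet w).ncard]
    · rw [if_pos rfl, dg_eq]
    · intro k _ hk
      rw [if_neg (Ne.symm hk), zero_mul]
    · intro hk
      exfalso
      apply hk
      rw [mem_range]
      have h7 : (G.neighborSet w).ncard ≤ n := by
        have := Set.ncard_le_card (G.neighborSet w)
        rwa [Nat.card_eq_fintype_card, Fintype.card_fin] at this
      omega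
  rw [key u, key v]
  exact sum_congr rfl fun k _ => by rw [h3 u v k h4]

theorem result (n : ℕ) (hn : 4 ≤ n) (G H : SimpleGraph (Fin n))
    (h1 : ∀ v : Fin n, ∃ w : Fin n,
      Nonempty (G.induce ({v}ᶜ : Set (Fin n)) ≃g H.induce ({w}ᶜ : Set (Fin n))))
    (h2 : ∀ w : Fin n, ∃ v : Fin n,
      Nonempty (G.induce ({v}ᶜ : Set (Fin n)) ≃g H.induce ({w}ᶜ : Set (Fin n))))
    (h3 : ∀ (u v : Fin n) (k : ℕ), (G.neighborSet u).ncard = (G.neighborSet v).ncard →
      Set.ncard {w : Fin n | G.Adj u w ∧ (G.neighborSet w).ncard = k} =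
        Set.ncard {w : Fin n | G.Adj v w ∧ (G.neighborSet w).ncard = k}) :
    ∀ k : ℕ, Set.ncard {v : Fin n | (G.neighborSet v).ncard = k} =
      Set.ncard {v : Fin n | (H.neighborSet v).ncard = k} := by
  intro k
  have h4 := card_deg_eq (G := G) (H := H) (by rw [Fintype.card_fin]; exact hn) ⟨h1, h2⟩
    (eqt G h3) k
  have h5 : ∀ K : SimpleGraph (Fin n), {v : Fin n | (K.neighborSet v).ncard = k} =
      {v | dg K v = k} := by
    intro K
    ext v
    simp only [Set.mem_setOf_eq]
    rw [dg_eq]
    exact Nat.cast_inj.symm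
  rw [h5 G, h5 H]
  exact h4

end Pool.Agent.Results.MP_ecede9_co.EquitableDegrees
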