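import Pool.Agent.Lib.Pecede9.Three

/-!
# Uniqueness of card multiplicities for near regular graphs with equitable degree partition

Any number of different cards is allowed.
-/

set_option autoImplicit false

open Finset

namespace Pool.Agent.Results.MP_ecede9_co.NearRegular

open Pool.Agent.Lib.Pecede9

theorem dg_eq {n : ℕ} (G : SimpleGraph (Fin n)) (v : Fin n) :
    dg G v = ((G.neighborSet v).ncard : ℤ) := by
  classical
  have h1 : G.neighborSet v = ((univ.filter fun w => G.Adj v w : Finset (Fin n)) : Set (Fin n)) := by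
    ext w; simp
  rw [h1, Set.ncard_coe_finset, card_filter]
  unfold dg
  push_cast
  refine sum_congr rfl fun w _ => ?_
  by_cases h : G.Adj v w
  · rw [a_one h, if_pos h]
  · rw [a_zero h, if_neg h]

theorem result (n : ℕ) (hn : 4 ≤ n) (G H : SimpleGraph (Fin n))
    (h1 : ∀ v : Fin n, ∃ w : Fin n,
      Nonempty (G.induce ({v}ᶜ : Set (Fin n)) ≃g H.induce ({w}ᶜ : Set (Fin n))))
    (h2 : ∀ w : Fin n, ∃ v : Fin n,
      Nonempty (G.induce ({v}ᶜ : Set (Fin n)) ≃g H.induce ({w}ᶜ : Set (Fin n))))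
    (d t s : ℕ)
    (h3 : ∀ v : Fin n,
      ((G.neighborSet v).ncard = d ∧
        Set.ncard {w : Fin n | G.Adj v w ∧ (G.neighborSet w).ncard = d + 1} = t) ∨
      ((G.neighborSet v).ncard = d + 1 ∧
        Set.ncard {w : Fin n | G.Adj v w ∧ (G.neighborSet w).ncard = d + 1} = s)) :
    ∀ v : Fin n,
      Set.ncard {u : Fin n |
        Nonempty (G.induce ({u}ᶜ : Set (Fin n)) ≃g G.induce ({v}ᶜ : Set (Fin n)))} =
      Set.ncard {u : Fin n |
        Nonempty (H.induce ({u}ᶜ : Set (Fin n)) ≃g G.induce ({v}ᶜ : Set (Fin n)))} := by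
  classical
  have h01 : ∀ x, dg G x - (d : ℤ) = 0 ∨ dg G x - (d : ℤ) = 1 := by
    intro x
    rw [dg_eq]
    rcases h3 x with ⟨h, -⟩ | ⟨h, -⟩
    · left; rw [h]; ring
    · right; rw [h]; push_cast; ring
  have hT : ∀ v, ∑ w, a G v w * (dg G w - (d : ℤ)) =
      (Set.ncard {w : Fin n | G.Adj v w ∧ (G.neighborSet w).ncard = d + 1} : ℤ) := by
    intro v
    have e1 : {w : Fin n | G.Adj v w ∧ (G.neighborSet w).ncard = d + 1} =
        ((univ.filter fun w => G.Adj v w ∧ (G.neighborSet w).ncard = d + 1 : Finset (Fin n)) :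
          Set (Fin n)) := by
      ext w; simp
    rw [e1, Set.ncard_coe_finset, card_filter]
    push_cast
    refine sum_congr rfl fun w _ => ?_
    have h4 := dg_eq G w
    by_cases h : G.Adj v w
    · rcases h3 w with ⟨h5, -⟩ | ⟨h5, -⟩
      · rw [if_neg (by rintro ⟨_, h6⟩; omega), h4, h5]; ring
      · rw [if_pos ⟨h, h5⟩, a_one h, h4, h5]; push_cast; ring
    · rw [a_zero h, if_neg (by rintro ⟨h6, _⟩; exact h h6)]; ring
  have hgood : Good (d : ℤ) (t : ℤ) ((s : ℤ) - t) (∑ x, (dg G x - (d : ℤ))) G := by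
    refine ⟨h01, fun x => ?_, rfl⟩
    rw [hT, dg_eq]
    rcases h3 x with ⟨h, h'⟩ | ⟨h, h'⟩
    · rw [h, h']; ring
    · rw [h, h']; push_cast; ring
  intro v
  have : Nonempty (Fin n) := ⟨v⟩
  exact equitable (by rw [Fintype.card_fin]; exact hn) ⟨h1, h2⟩ hgood v

end Pool.Agent.Results.MP_ecede9_co.NearRegular
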